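import Pool.Agent.helper84.LP.SpecP

/-!
# Row lp:OSL (MP_07c750_an): the oscillatory integral
-/

open MeasureTheory Set

set_option autoImplicit false

namespace Pool.Agent.LP

noncomputable section

theorem OSL_ee (s : ℝ) : ‖ee s‖ = 1 := by
  unfold ee
  exact Complex.norm_exp_ofReal_mul_I s

theorem OSL_set {x y : ℝ} (hxy : x ≤ y) (f : ℝ → ℂ) : ∫ u in Icc x y, f u = ∫ u in x..y, f u := by
  rw [integral_Icc_eq_integral_Ioc, intervalIntegral.integral_of_le hxy]

theorem OSL_dee {Φ : ℝ → ℝ} {d u : ℝ} (h : HasDerivAt Φ d u) : HasDerivAt (fun v => ee (Φ v)) (ee (Φ u) * ((d : ℂ) * Complex.I)) u := by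
  unfold ee
  exact (h.ofReal_comp.mul_const Complex.I).cexp

theorem OSL_cee {Φ : ℝ → ℝ} {S : Set ℝ} (h : ContinuousOn Φ S) : ContinuousOn (fun v => ee (Φ v)) S := by
  unfold ee
  exact ((Complex.continuous_ofReal.comp_continuousOn h).mul continuousOn_const).cexp

/-- the hypotheses -/
def OSL_H (C1 t A B : ℝ) (Φ k k' g g' : ℝ → ℝ) (S : Set ℝ) : Prop :=
  ∀ u ∈ S, HasDerivAt Φ (t * (A + B * u) * k u) u ∧ HasDerivAt k (k' u) u ∧ HasDerivAt g (g' u) u ∧ 1 / C1 ≤ k u ∧ k u ≤ C1 ∧ |k' u| ≤ C1 ∧ |g u| ≤ C1 ∧ |g' u| ≤ C1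

theorem OSL_part {C1 t A B : ℝ} {Φ k k' g g' : ℝ → ℝ} (hC : 1 ≤ C1) (ht : 0 < t) {x y L : ℝ} (hxy : x ≤ y) (hy4 : y - x ≤ 4)
    (hH : OSL_H C1 t A B Φ k k' g g' (Icc x y)) (hk' : ContinuousOn k' (Icc x y)) (hg' : ContinuousOn g' (Icc x y)) (hL : 0 < L)
    (hl : ∀ u ∈ Icc x y, L ≤ |A + B * u|) : ‖∫ u in Icc x y, ee (Φ u) * (g u : ℂ)‖ ≤ 12 * C1 ^ 4 / (t * L) := by
  have hC0 : 0 < C1 := by linarith
  have hl0 : ∀ u ∈ Icc x y, A + B * u ≠ 0 := by
    intro u hu h0
    have := hl u hu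
    rw [h0, abs_zero] at this
    linarith
  have hk0 : ∀ u ∈ Icc x y, 0 < k u := fun u hu => lt_of_lt_of_le (by positivity) (hH u hu).2.2.2.1
  have hkinv : ∀ u ∈ Icc x y, 1 / k u ≤ C1 := by
    intro u hu
    rw [div_le_iff₀ (hk0 u hu)]
    have := (div_le_iff₀ hC0).1 (hH u hu).2.2.2.1
    linarith
  have hlinv : ∀ u ∈ Icc x y, 1 / |A + B * u| ≤ 1 / L := fun u hu => one_div_le_one_div_of_le hL (hl u hu)
  have cΦ : ContinuousOn Φ (Icc x y) := fun u hu => (hH u hu).1.continuousAt.continuousWithinAt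
  have ck : ContinuousOn k (Icc x y) := fun u hu => (hH u hu).2.1.continuousAt.continuousWithinAt
  have cg : ContinuousOn g (Icc x y) := fun u hu => (hH u hu).2.2.1.continuousAt.continuousWithinAt
  have cl : ContinuousOn (fun u : ℝ => A + B * u) (Icc x y) := by fun_prop
  set ψ : ℝ → ℝ := fun u => g u / ((A + B * u) * k u) with hψ
  set ψ' : ℝ → ℝ := fun u => (g' u * ((A + B * u) * k u) - g u * (B * k u + (A + B * u) * k' u)) / ((A + B * u) * k u) ^ 2 with hψ'
  have dψ : ∀ u ∈ Icc x y, HasDerivAt ψ (ψ' u) u := by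
    intro u hu
    obtain ⟨h1, h2, h3, -⟩ := hH u hu
    have hd : HasDerivAt (fun v : ℝ => A + B * v) B u := by
      simpa using ((hasDerivAt_id u).const_mul B).const_add A
    exact h3.div (hd.mul h2) (mul_ne_zero (hl0 u hu) (hk0 u hu).ne')
  have cψ' : ContinuousOn ψ' (Icc x y) := by
    refine ContinuousOn.div ?_ ?_ ?_
    · exact (hg'.mul (cl.mul ck)).sub (cg.mul ((continuousOn_const.mul ck).add (cl.mul hk')))
    · exact (cl.mul ck).pow 2
    · intro u hu
      exact pow_ne_zero 2 (mul_ne_zero (hl0 u hu) (hk0 u hu).ne')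
  -- the bound of `ψ`
  have bψ : ∀ u ∈ Icc x y, |ψ u| ≤ C1 ^ 2 / L := by
    intro u hu
    have e : |ψ u| = |g u| * (1 / |A + B * u|) * (1 / k u) := by
      simp only [hψ]
      rw [abs_div, abs_mul, abs_of_pos (hk0 u hu)]
      field_simp
    rw [e]
    calc |g u| * (1 / |A + B * u|) * (1 / k u) ≤ C1 * (1 / L) * C1 := by
          refine mul_le_mul (mul_le_mul (hH u hu).2.2.2.2.2.2.1 (hlinv u hu) (by positivity) hC0.le) (hkinv u hu) ?_ (by positivity)
          exact (div_pos one_pos (hk0 u hu)).le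
      _ = C1 ^ 2 / L := by ring
  -- the bound of the derivative
  have bψ' : ∀ u ∈ Icc x y, |ψ' u| ≤ (C1 ^ 2 + C1 ^ 4) / L + C1 ^ 2 * (|B| / (A + B * u) ^ 2) := by
    intro u hu
    obtain ⟨-, -, -, -, -, b1, b2, b3⟩ := hH u hu
    have hne := hl0 u hu
    have hkp := hk0 u hu
    have hlp : 0 < |A + B * u| := abs_pos.2 hne
    have e : ψ' u = g' u * (1 / (A + B * u)) * (1 / k u) - g u * k' u * (1 / (A + B * u)) * (1 / k u) ^ 2 - g u * (1 / k u) * (B / (A + B * u) ^ 2) := by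
      simp only [hψ']
      have := hkp.ne'
      field_simp
      ring
    rw [e]
    have i1 : |g' u * (1 / (A + B * u)) * (1 / k u)| ≤ C1 ^ 2 / L := by
      rw [abs_mul, abs_mul, abs_div, abs_one, abs_of_pos (div_pos one_pos hkp)]
      calc |g' u| * (1 / |A + B * u|) * (1 / k u) ≤ C1 * (1 / L) * C1 :=
            mul_le_mul (mul_le_mul b3 (hlinv u hu) (by positivity) hC0.le) (hkinv u hu) (div_pos one_pos hkp).le (by positivity)
        _ = C1 ^ 2 / L := by ring
    have i2 : |g u * k' u * (1 / (A + B * u)) * (1 / k u) ^ 2| ≤ C1 ^ 4 / L := by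
      rw [abs_mul, abs_mul, abs_mul, abs_div, abs_one, abs_pow, abs_of_pos (div_pos one_pos hkp)]
      calc |g u| * |k' u| * (1 / |A + B * u|) * (1 / k u) ^ 2 ≤ C1 * C1 * (1 / L) * C1 ^ 2 :=
            mul_le_mul (mul_le_mul (mul_le_mul b2 b1 (abs_nonneg _) hC0.le) (hlinv u hu) (by positivity) (by positivity))
              (pow_le_pow_left₀ (div_pos one_pos hkp).le (hkinv u hu) 2) (by positivity) (by positivity)
        _ = C1 ^ 4 / L := by ring
    have i3 : |g u * (1 / k u) * (B / (A + B * u) ^ 2)| ≤ C1 ^ 2 * (|B| / (A + B * u) ^ 2) := by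
      rw [abs_mul, abs_mul, abs_div B, abs_pow, sq_abs, abs_of_pos (div_pos one_pos hkp)]
      refine mul_le_mul_of_nonneg_right ?_ (by positivity)
      calc |g u| * (1 / k u) ≤ C1 * C1 := mul_le_mul b2 (hkinv u hu) (div_pos one_pos hkp).le hC0.le
        _ = C1 ^ 2 := by ring
    calc |g' u * (1 / (A + B * u)) * (1 / k u) - g u * k' u * (1 / (A + B * u)) * (1 / k u) ^ 2 - g u * (1 / k u) * (B / (A + B * u) ^ 2)|
        ≤ |g' u * (1 / (A + B * u)) * (1 / k u)| + |g u * k' u * (1 / (A + B * u)) * (1 / k u) ^ 2| + |g u * (1 / k u) * (B / (A + B * u) ^ 2)| :=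
          (abs_sub _ _).trans (add_le_add_left (abs_sub _ _) _)
      _ ≤ C1 ^ 2 / L + C1 ^ 4 / L + C1 ^ 2 * (|B| / (A + B * u) ^ 2) := add_le_add (add_le_add i1 i2) i3
      _ = (C1 ^ 2 + C1 ^ 4) / L + C1 ^ 2 * (|B| / (A + B * u) ^ 2) := by ring
  -- the integral of `|B|/ℓ²`
  have hxI : x ∈ Icc x y := left_mem_Icc.2 hxy
  have hyI : y ∈ Icc x y := right_mem_Icc.2 hxy
  have cB : ContinuousOn (fun u : ℝ => |B| / (A + B * u) ^ 2) (Icc x y) :=
    continuousOn_const.div (cl.pow 2) fun u hu => pow_ne_zero 2 (hl0 u hu)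
  have iB : ∫ u in x..y, |B| / (A + B * u) ^ 2 ≤ 2 / L := by
    have cB' : ContinuousOn (fun u : ℝ => B / (A + B * u) ^ 2) (uIcc x y) := by
      rw [uIcc_of_le hxy]
      exact continuousOn_const.div (cl.pow 2) fun u hu => pow_ne_zero 2 (hl0 u hu)
    have h1 : ∫ u in x..y, B / (A + B * u) ^ 2 = (-(1 / (A + B * y))) - (-(1 / (A + B * x))) := by
      refine intervalIntegral.integral_eq_sub_of_hasDerivAt (f := fun u => -(1 / (A + B * u))) ?_ cB'.intervalIntegrable
      intro u hu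
      rw [uIcc_of_le hxy] at hu
      have hd : HasDerivAt (fun v : ℝ => A + B * v) B u := by
        simpa using ((hasDerivAt_id u).const_mul B).const_add A
      have h2 := (hd.inv (hl0 u hu)).neg
      have e1 : (fun v : ℝ => -(1 / (A + B * v))) = -(fun v : ℝ => A + B * v)⁻¹ := by
        funext v
        simp
      rw [e1]
      have e2 : B / (A + B * u) ^ 2 = -(-B / (A + B * u) ^ 2) := by ring
      rw [e2]
      exact h2
    have h2 : |(-(1 / (A + B * y))) - (-(1 / (A + B * x)))| ≤ 2 / L := by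
      have i1 : |(-(1 / (A + B * y))) - (-(1 / (A + B * x)))| ≤ |1 / (A + B * y)| + |1 / (A + B * x)| := by
        refine (abs_sub _ _).trans (le_of_eq ?_)
        rw [abs_neg, abs_neg]
      refine i1.trans ?_
      rw [abs_div, abs_div, abs_one]
      have := hlinv y hyI
      have := hlinv x hxI
      have e : 2 / L = 1 / L + 1 / L := by ring
      rw [e]
      linarith
    rcases le_total 0 B with hB | hB
    · rw [abs_of_nonneg hB, h1]
      exact (le_abs_self _).trans h2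
    · have e : ∫ u in x..y, |B| / (A + B * u) ^ 2 = -∫ u in x..y, B / (A + B * u) ^ 2 := by
        rw [← intervalIntegral.integral_neg]
        refine intervalIntegral.integral_congr fun u _ => ?_
        rw [abs_of_nonpos hB, neg_div]
      rw [e, h1]
      exact (neg_le_abs _).trans h2
  -- integration by parts
  have cE : ContinuousOn (fun u => ee (Φ u)) (Icc x y) := OSL_cee cΦ
  have c1 : IntervalIntegrable (fun u => ee (Φ u) * (g u : ℂ)) volume x y := by
    refine ContinuousOn.intervalIntegrable ?_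
    rw [uIcc_of_le hxy]
    exact cE.mul (Complex.continuous_ofReal.comp_continuousOn cg)
  have c2 : IntervalIntegrable (fun u => ee (Φ u) * (ψ' u : ℂ)) volume x y := by
    refine ContinuousOn.intervalIntegrable ?_
    rw [uIcc_of_le hxy]
    exact cE.mul (Complex.continuous_ofReal.comp_continuousOn cψ')
  have hft : ∫ u in x..y, ((t : ℂ) * Complex.I * (ee (Φ u) * (g u : ℂ)) + ee (Φ u) * (ψ' u : ℂ)) = ee (Φ y) * (ψ y : ℂ) - ee (Φ x) * (ψ x : ℂ) := by
    refine intervalIntegral.integral_eq_sub_of_hasDerivAt (f := fun u => ee (Φ u) * (ψ u : ℂ)) ?_ ((c1.const_mul _).add c2)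
    intro u hu
    rw [uIcc_of_le hxy] at hu
    have h1 := (OSL_dee (hH u hu).1).mul (dψ u hu).ofReal_comp
    have e : (t : ℂ) * Complex.I * (ee (Φ u) * (g u : ℂ)) + ee (Φ u) * (ψ' u : ℂ) =
        ee (Φ u) * (((t * (A + B * u) * k u : ℝ) : ℂ) * Complex.I) * (ψ u : ℂ) + ee (Φ u) * (ψ' u : ℂ) := by
      have e2 : t * g u = t * (A + B * u) * k u * ψ u := by
        simp only [hψ]
        have := hl0 u hu
        have := (hk0 u hu).ne'
        field_simp
      have e3 : (t : ℂ) * (g u : ℂ) = ((t * (A + B * u) * k u : ℝ) : ℂ) * (ψ u : ℂ) := by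
        rw [← Complex.ofReal_mul, ← Complex.ofReal_mul, e2]
      linear_combination (Complex.I * ee (Φ u)) * e3
    rw [e]
    exact h1
  rw [intervalIntegral.integral_add (c1.const_mul _) c2, intervalIntegral.integral_const_mul] at hft
  rw [OSL_set hxy]
  have hn2 : ‖∫ u in x..y, ee (Φ u) * (ψ' u : ℂ)‖ ≤ 4 * ((C1 ^ 2 + C1 ^ 4) / L) + C1 ^ 2 * (2 / L) := by
    have hint : IntervalIntegrable (fun u : ℝ => (C1 ^ 2 + C1 ^ 4) / L + C1 ^ 2 * (|B| / (A + B * u) ^ 2)) volume x y := by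
      refine ContinuousOn.intervalIntegrable ?_
      rw [uIcc_of_le hxy]
      exact continuousOn_const.add (continuousOn_const.mul cB)
    have h1 : ‖∫ u in x..y, ee (Φ u) * (ψ' u : ℂ)‖ ≤ ∫ u in x..y, ((C1 ^ 2 + C1 ^ 4) / L + C1 ^ 2 * (|B| / (A + B * u) ^ 2)) := by
      refine intervalIntegral.norm_integral_le_of_norm_le hxy ?_ hint
      refine Filter.Eventually.of_forall fun u hu => ?_
      rw [norm_mul, OSL_ee, one_mul, Complex.norm_real, Real.norm_eq_abs]
      exact bψ' u ⟨hu.1.le, hu.2⟩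
    refine h1.trans ?_
    have iBi : IntervalIntegrable (fun u : ℝ => |B| / (A + B * u) ^ 2) volume x y := by
      refine ContinuousOn.intervalIntegrable ?_
      rw [uIcc_of_le hxy]
      exact cB
    rw [intervalIntegral.integral_add (by simp) (iBi.const_mul _), intervalIntegral.integral_const, intervalIntegral.integral_const_mul, smul_eq_mul]
    exact add_le_add (mul_le_mul_of_nonneg_right hy4 (by positivity)) (mul_le_mul_of_nonneg_left iB (by positivity))
  have hn3 : t * ‖∫ u in x..y, ee (Φ u) * (g u : ℂ)‖ ≤ 12 * C1 ^ 4 / L := by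
    have e1 : (t : ℂ) * Complex.I * ∫ u in x..y, ee (Φ u) * (g u : ℂ) = ee (Φ y) * (ψ y : ℂ) - ee (Φ x) * (ψ x : ℂ) - ∫ u in x..y, ee (Φ u) * (ψ' u : ℂ) := by
      rw [← hft]; ring
    have e2 : t * ‖∫ u in x..y, ee (Φ u) * (g u : ℂ)‖ = ‖(t : ℂ) * Complex.I * ∫ u in x..y, ee (Φ u) * (g u : ℂ)‖ := by
      rw [norm_mul, norm_mul, Complex.norm_I, mul_one, Complex.norm_real, Real.norm_eq_abs, abs_of_pos ht]
    rw [e2, e1]
    have f1 : ‖ee (Φ y) * (ψ y : ℂ)‖ ≤ C1 ^ 2 / L := by
      rw [norm_mul, OSL_ee, one_mul, Complex.norm_real, Real.norm_eq_abs]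
      exact bψ y hyI
    have f2 : ‖ee (Φ x) * (ψ x : ℂ)‖ ≤ C1 ^ 2 / L := by
      rw [norm_mul, OSL_ee, one_mul, Complex.norm_real, Real.norm_eq_abs]
      exact bψ x hxI
    have f3 := norm_sub_le (ee (Φ y) * (ψ y : ℂ) - ee (Φ x) * (ψ x : ℂ)) (∫ u in x..y, ee (Φ u) * (ψ' u : ℂ))
    have f4 := norm_sub_le (ee (Φ y) * (ψ y : ℂ)) (ee (Φ x) * (ψ x : ℂ))
    have hC24 : C1 ^ 2 ≤ C1 ^ 4 := pow_le_pow_right₀ hC (by norm_num)
    have f5 : C1 ^ 2 / L ≤ C1 ^ 4 / L := div_le_div_of_nonneg_right hC24 hL.le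
    have f6 : 4 * ((C1 ^ 2 + C1 ^ 4) / L) + C1 ^ 2 * (2 / L) = 6 * (C1 ^ 2 / L) + 4 * (C1 ^ 4 / L) := by ring
    have f7 : 12 * C1 ^ 4 / L = 12 * (C1 ^ 4 / L) := by ring
    rw [f7]
    linarith
  have e : 12 * C1 ^ 4 / (t * L) = 12 * C1 ^ 4 / L / t := by
    rw [div_div, mul_comm t L]
  rw [e, le_div_iff₀ ht, mul_comm]
  exact hn3

theorem OSL_proof : OSL_stmt := by
  intro C1 hC
  have hC0 : 0 < C1 := by linarith
  have hC14 : C1 ≤ C1 ^ 4 := le_self_pow₀ hC (by norm_num)
  refine ⟨26 * C1 ^ 4, by linarith, ?_⟩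
  intro t A B Φ k k' g g' ht hH hk' hg'
  have hsub : ∀ x y : ℝ, -2 ≤ x → y ≤ 2 → Icc x y ⊆ Icc (-2 : ℝ) 2 := fun x y hx hy => Icc_subset_Icc hx hy
  have h12 : ∀ x y L : ℝ, -2 ≤ x → x ≤ y → y ≤ 2 → 0 < L → (∀ u ∈ Icc x y, L ≤ |A + B * u|) →
      ‖∫ u in Icc x y, ee (Φ u) * (g u : ℂ)‖ ≤ 12 * C1 ^ 4 / (t * L) := by
    intro x y L hx hxy hy hL hl
    exact OSL_part hC ht hxy (by linarith) (fun u hu => hH u (hsub x y hx hy hu)) (hk'.mono (hsub x y hx hy)) (hg'.mono (hsub x y hx hy)) hL hl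
  refine ⟨?_, ?_⟩
  · intro x y L hx hxy hy hL hl
    refine (h12 x y L hx hxy hy hL hl).trans ?_
    exact div_le_div_of_nonneg_right (by nlinarith [pow_pos hC0 4]) (by positivity)
  · intro hB
    have hBp : 0 < |B| := abs_pos.2 hB
    set r : ℝ := Real.sqrt (t * |B|) with hr
    have hr0 : 0 < r := Real.sqrt_pos.2 (by positivity)
    have hrr : r * r = t * |B| := Real.mul_self_sqrt (by positivity)
    set ρ : ℝ := 1 / r with hρ
    have hρ0 : 0 < ρ := by positivity
    set c : ℝ := -A / B with hc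
    have hlc : ∀ u : ℝ, |A + B * u| = |B| * |u - c| := by
      intro u
      rw [← abs_mul]
      congr 1
      rw [hc]
      field_simp
      ring
    -- `L = |B| ρ`, `t L = r`
    have hL : 0 < |B| * ρ := by positivity
    have htL : t * (|B| * ρ) = r := by
      rw [hρ, ← mul_assoc, ← hrr]
      field_simp
    have hcont : ContinuousOn (fun u => ee (Φ u) * (g u : ℂ)) (Icc (-2 : ℝ) 2) := by
      have cΦ : ContinuousOn Φ (Icc (-2 : ℝ) 2) := fun u hu => (hH u hu).1.continuousAt.continuousWithinAt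
      have cg : ContinuousOn g (Icc (-2 : ℝ) 2) := fun u hu => (hH u hu).2.2.1.continuousAt.continuousWithinAt
      exact (OSL_cee cΦ).mul (Complex.continuous_ofReal.comp_continuousOn cg)
    set a : ℝ := max (-2) (min 2 (c - ρ)) with ha
    set b : ℝ := max (-2) (min 2 (c + ρ)) with hb
    have ha1 : -2 ≤ a := le_max_left _ _
    have ha2 : a ≤ 2 := max_le (by norm_num) (min_le_left _ _)
    have hb1 : -2 ≤ b := le_max_left _ _
    have hb2 : b ≤ 2 := max_le (by norm_num) (min_le_left _ _)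
    have hab : a ≤ b := max_le_max le_rfl (min_le_min le_rfl (by linarith))
    have hba : b - a ≤ 2 * ρ := by
      have h1 : min 2 (c + ρ) ≤ min 2 (c - ρ) + 2 * ρ := by
        rcases le_total 2 (c - ρ) with h | h
        · rw [min_eq_left h]
          exact (min_le_left _ _).trans (by linarith)
        · rw [min_eq_right h]
          exact (min_le_right _ _).trans (by linarith)
      have h2 : b ≤ a + 2 * ρ := by
        refine max_le (by linarith) ?_
        have := le_max_right (-2) (min 2 (c - ρ))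
        linarith
      linarith
    have hii : ∀ x y : ℝ, -2 ≤ x → x ≤ 2 → -2 ≤ y → y ≤ 2 → IntervalIntegrable (fun u => ee (Φ u) * (g u : ℂ)) volume x y := by
      intro x y hx hx' hy hy'
      refine ContinuousOn.intervalIntegrable (hcont.mono ?_)
      intro u hu
      rw [mem_uIcc] at hu
      rcases hu with hu | hu
      · exact ⟨by linarith [hu.1], by linarith [hu.2]⟩
      · exact ⟨by linarith [hu.1], by linarith [hu.2]⟩
    have hsplit : ∫ u in (-2 : ℝ)..2, ee (Φ u) * (g u : ℂ) = (∫ u in (-2 : ℝ)..a, ee (Φ u) * (g u : ℂ)) + (∫ u in a..b, ee (Φ u) * (g u : ℂ)) + ∫ u in b..2, ee (Φ u) * (g u : ℂ) := by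
      rw [intervalIntegral.integral_add_adjacent_intervals (hii _ _ (by norm_num) (by norm_num) ha1 ha2) (hii _ _ ha1 ha2 hb1 hb2),
        intervalIntegral.integral_add_adjacent_intervals (hii _ _ (by norm_num) (by norm_num) hb1 hb2) (hii _ _ hb1 hb2 (by norm_num) le_rfl)]
    have hp : 0 ≤ 12 * C1 ^ 4 / r := by positivity
    have j1 : ‖∫ u in (-2 : ℝ)..a, ee (Φ u) * (g u : ℂ)‖ ≤ 12 * C1 ^ 4 / r := by
      rcases eq_or_lt_of_le ha1 with h | h
      · rw [← h, intervalIntegral.integral_same, norm_zero]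
        exact hp
      · rw [← OSL_set ha1]
        have h1 := h12 (-2) a (|B| * ρ) le_rfl ha1 ha2 hL (by
          intro u hu
          rw [hlc]
          refine mul_le_mul_of_nonneg_left ?_ (abs_nonneg _)
          have h2 : a ≤ c - ρ := by
            rcases le_total (-2) (min 2 (c - ρ)) with h3 | h3
            · rw [ha, max_eq_right h3]
              exact min_le_right _ _
            · rw [ha, max_eq_left h3] at h
              exact absurd h (lt_irrefl _)
          have h3 := hu.2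
          rw [abs_of_nonpos (by linarith)]
          linarith)
        rw [htL] at h1
        exact h1
    have j3 : ‖∫ u in b..2, ee (Φ u) * (g u : ℂ)‖ ≤ 12 * C1 ^ 4 / r := by
      rcases eq_or_lt_of_le hb2 with h | h
      · rw [h, intervalIntegral.integral_same, norm_zero]
        exact hp
      · rw [← OSL_set hb2]
        have h1 := h12 b 2 (|B| * ρ) hb1 hb2 le_rfl hL (by
          intro u hu
          rw [hlc]
          refine mul_le_mul_of_nonneg_left ?_ (abs_nonneg _)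
          have h2 : c + ρ ≤ b := by
            rcases le_total 2 (c + ρ) with h3 | h3
            · rw [hb, min_eq_left h3, max_eq_right (by norm_num)] at h
              exact absurd h (lt_irrefl _)
            · rw [hb, min_eq_right h3]
              exact le_max_right _ _
          have h3 := hu.1
          rw [abs_of_nonneg (by linarith)]
          linarith)
        rw [htL] at h1
        exact h1
    have j2 : ‖∫ u in a..b, ee (Φ u) * (g u : ℂ)‖ ≤ C1 * (2 * ρ) := by
      have h1 : ‖∫ u in a..b, ee (Φ u) * (g u : ℂ)‖ ≤ C1 * |b - a| := by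
        refine intervalIntegral.norm_integral_le_of_norm_le_const ?_
        intro u hu
        rw [uIoc_of_le hab] at hu
        rw [norm_mul, OSL_ee, one_mul, Complex.norm_real, Real.norm_eq_abs]
        exact (hH u ⟨by linarith [hu.1], by linarith [hu.2]⟩).2.2.2.2.2.2.1
      rw [abs_of_nonneg (by linarith)] at h1
      exact h1.trans (mul_le_mul_of_nonneg_left hba hC0.le)
    rw [OSL_set (by norm_num), hsplit]
    have k1 := norm_add_le ((∫ u in (-2 : ℝ)..a, ee (Φ u) * (g u : ℂ)) + (∫ u in a..b, ee (Φ u) * (g u : ℂ))) (∫ u in b..2, ee (Φ u) * (g u : ℂ))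
    have k2 := norm_add_le (∫ u in (-2 : ℝ)..a, ee (Φ u) * (g u : ℂ)) (∫ u in a..b, ee (Φ u) * (g u : ℂ))
    have e : 26 * C1 ^ 4 / r = 12 * C1 ^ 4 / r + 12 * C1 ^ 4 / r + 2 * (C1 ^ 4 / r) := by ring
    have e2 : C1 * (2 * ρ) = 2 * (C1 / r) := by rw [hρ]; ring
    have e3 : C1 / r ≤ C1 ^ 4 / r := div_le_div_of_nonneg_right hC14 hr0.le
    rw [e]
    linarith

end

end Pool.Agent.LP
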