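import Pool.Agent.helper84.LP.SpecG

/-!
# Row lp:UZL (MP_07c750_an): measurability and length of the leaf sets
-/

open scoped MatrixGroups ContDiff Topology UpperHalfPlane ComplexConjugate
open UpperHalfPlane MeasureTheory Filter Set

set_option autoImplicit false

namespace Pool.Agent.LP

open Pool.Agent.RS
open Pool.Agent.MS (bq BB BA SF pf)
open Pool.Agent.HV (FW)
open Pool.Agent.EN (XG MG mkX mkM fl pr)
open Pool.Agent.ER (Low LowJ)

noncomputable section

theorem UZL_aM0 (h : RS.GLC_stmt) : aM 0 = 1 := by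
  obtain ⟨-, -, -, -, -, -, -, -, -, -, haa, -⟩ := h
  have h1 := haa 0 0
  rw [add_zero] at h1
  exact (mul_eq_left.1 h1.symm)

theorem UZL_fin (S : Set ℝ) (v r : ℝ) (h : ∀ x ∈ S, |x - v| ≤ r) : volume S ≠ ⊤ := by
  refine ne_top_of_le_ne_top (measure_Icc_lt_top (a := v - r) (b := v + r)).ne (measure_mono ?_)
  intro x hx
  obtain ⟨h1, h2⟩ := abs_le.1 (h x hx)
  exact ⟨by linarith, by linarith⟩

theorem UZL_proof (hBWM : HV.BWM_stmt) (hYVO : IR.YVO_stmt) (hGLC : RS.GLC_stmt) : UZL_stmt := by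
  intro Γ hΓ
  obtain ⟨C', hC', hY⟩ := hYVO Γ hΓ
  have ha0 := UZL_aM0 hGLC
  obtain ⟨-, -, -, -, -, hlM, -⟩ := hGLC
  refine ⟨max C' 1, le_max_right _ _, ?_⟩
  intro b G m Au Ad z hb hb1
  have hmono : ∀ (n : ℕ) (x : ℝ), C' * n * Real.exp x ≤ max C' 1 * n * Real.exp x := by
    intro n x
    exact mul_le_mul_of_nonneg_right (mul_le_mul_of_nonneg_right (le_max_left _ _) (Nat.cast_nonneg _)) (Real.exp_pos _).le
  refine ⟨?_, ?_, ?_, ?_⟩
  · have c1 : Continuous fun u : ℝ => z * lM u := continuous_const.mul hlM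
    have c2 : Continuous fun u : ℝ => z * lM u * aM (((G : ℝ) - 1) * m) := c1.mul continuous_const
    have m0 : MeasurableSet {u : ℝ | |u| ≤ 2} := measurableSet_le (by fun_prop) measurable_const
    have m1 : MeasurableSet {u : ℝ | z * lM u ∈ FW Γ Au b (Real.exp (-(G * m)))} := c1.measurable (hBWM Γ Au b _ hΓ).2.1
    have m2 : MeasurableSet {u : ℝ | z * lM u * aM (((G : ℝ) - 1) * m) ∈ FW Γ Ad b (Real.exp (-m))} := c2.measurable (hBWM Γ Ad b _ hΓ).2.1
    exact m0.inter (m1.inter m2)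
  · intro u hu
    exact abs_le.1 hu.1
  · have h1 := hY b (G * m) 0 0 Au z hb hb1 (by positivity)
    rw [zero_add] at h1
    refine le_trans ?_ (h1.trans (hmono _ _))
    refine measureReal_mono ?_ ?_
    · rintro u ⟨hu1, hu2, -⟩
      refine ⟨?_, ?_⟩
      · rw [sub_zero, neg_zero, Real.exp_zero, mul_one]
        linarith
      · rw [ha0, mul_one]
        exact hu2
    · exact UZL_fin _ 0 (4 * Real.exp (-0)) fun x hx => hx.1
  · intro y
    have h1 := hY b m (((G : ℝ) - 1) * m) y Ad z hb hb1 (Nat.cast_nonneg _)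
    have e : ((G : ℝ) - 1) * m + m = G * m := by ring
    rw [e] at h1
    refine le_trans ?_ (h1.trans (hmono _ _))
    refine measureReal_mono ?_ ?_
    · rintro u ⟨⟨-, -, hu3⟩, hu4, hu5⟩
      refine ⟨?_, hu3⟩
      have := Real.exp_pos (-(((G : ℝ) - 1) * m))
      rw [abs_of_nonneg (by linarith)]
      linarith
    · exact UZL_fin _ y (4 * Real.exp (-(((G : ℝ) - 1) * m))) fun x hx => hx.1

end

end Pool.Agent.LP
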